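import Mathlib
import Pool.Agent.P8H13.AD.Gen
import Pool.Agent.N646.RG.Hit

/-!
# Linear families of sets of shifts, uniformly at every scale (helper13)
-/

set_option autoImplicit false

namespace Pool.Agent.P8H13.UL

open Finset Filter Topology
open Pool.Agent.P8H13.AD (dot GenPos lin through dot_add mszk box box_card)
open Pool.Agent.N646.RG
open Pool.Agent.N646.RO (Rgh)

/-- at least `N / (log N) ^ C` of the `1 ≤ n ≤ N` make all `n + a i` prime -/
def Many (C N : ℕ) {k : ℕ} (a : Fin (k + 1) → ℤ) : Prop :=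
  (N : ℝ) / Real.log N ^ C ≤ (((Icc 1 N).filter (fun n : ℕ => ∀ i, ((n : ℤ) + a i).toNat.Prime)).card : ℝ)

/-- the number with index `g` -/
def val {T k : ℕ} (e : Fin T → Fin k → ℤ) (γ : Fin T → ℤ) (κ : Fin k → ℤ) (g : Fin T) : ℤ :=
  dot (e g) κ + γ g

/-- all numbers lie between `0` and `N / B` -/
def Bd {T k : ℕ} (B N : ℕ) (e : Fin T → Fin k → ℤ) (γ : Fin T → ℤ) (κ : Fin k → ℤ) : Prop :=
  ∀ g, 0 ≤ val e γ κ g ∧ B * val e γ κ g ≤ N

/-- `κ` is exceptional -/
def Exc {T k : ℕ} (M C N : ℕ) (e : Fin T → Fin k → ℤ) (γ : Fin T → ℤ) (κ : Fin k → ℤ) : Prop :=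
  Function.Injective (val e γ κ) ∧
    (∀ p : ℕ, p.Prime → ∃ r : ℤ, ∀ g, ¬ (p : ℤ) ∣ val e γ κ g + r) ∧
    ¬ ∃ S : Finset (Fin T), M + 1 ≤ S.card ∧ ∀ f : Fin (k + 1) → Fin T, Function.Injective f →
      (∀ i, f i ∈ S) → Many C N (fun i => val e γ κ (f i))

open Classical in
/-- the good sets of indices -/
noncomputable def col {T k : ℕ} (C N : ℕ) (e : Fin T → Fin k → ℤ) (γ : Fin T → ℤ) (κ : Fin k → ℤ) :
    Finset (Fin (k + 1) → Fin T) := univ.filter (fun f => Many C N (fun i => val e γ κ (f i)))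

theorem val_add {T k : ℕ} (e : Fin T → Fin k → ℤ) (γ : Fin T → ℤ) (x v : Fin k → ℤ) (l : ℤ) (g : Fin T) :
    val e γ (fun i => x i + l * v i) g = val e γ x g + l * dot (e g) v := by
  unfold val
  rw [dot_add]
  ring

open Classical in
theorem core (k T M : ℕ) (hk : 1 ≤ k) (hkM : k ≤ M) (hTM : (18 / 5 : ℝ) * M < T)
    (e : Fin T → Fin k → ℤ) (he : GenPos e) : ∃ W C B : ℕ, 1 ≤ B ∧ ∀ᶠ N : ℕ in atTop,
    ∀ (γ : Fin T → ℤ) (x : Fin k → ℤ) (l : ℕ), 1 ≤ l →
    ∀ G : Finset (Fin (k + 1) → Fin T), ¬ ∀ z : Fin k → ℤ, (∀ i, |z i| ≤ W) →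
      Bd B N e γ (fun i => x i + l * z i) ∧ Exc M C N e γ (fun i => x i + l * z i) ∧
        col C N e γ (fun i => x i + l * z i) = G := by
  have hMT : M < T := by
    have h1 : (M : ℝ) < T := by
      have : (0 : ℝ) ≤ M := Nat.cast_nonneg _
      linarith
    exact_mod_cast h1
  have hT : 1 ≤ T := by omega
  obtain ⟨K, s0, hK, δ, c0, hδ, hc0, hHIT⟩ := Hit.main T M hT hTM
  obtain ⟨P, hP, hlin⟩ := lin e he
  have : Nonempty (Fin T) := ⟨⟨0, hT⟩⟩
  have : Nonempty (Fin K) := ⟨⟨0, hK⟩⟩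
  -- the shape
  have hsv : ∀ z : (Fin (k + 1) → Fin T) × (Fin (k + 1) → Fin K), ∃ (s : ℤ) (v : Fin k → ℤ),
      Function.Injective z.1 → ∀ a, s + dot (e (z.1 a)) v = P * ((z.2 a : ℕ) : ℤ) := by
    intro z
    by_cases hz : Function.Injective z.1
    · obtain ⟨s, v, h⟩ := hlin z.1 hz (fun a => ((z.2 a : ℕ) : ℤ))
      exact ⟨s, v, fun _ => h⟩
    · exact ⟨0, 0, fun h => absurd h hz⟩
  choose s v hsv using hsv
  obtain ⟨W0, hW0⟩ : ∃ W0 : ℕ, W0 = ∑ z, ∑ i, (v z i).natAbs := ⟨_, rfl⟩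
  have hW0b : ∀ z i, |v z i| ≤ W0 := by
    intro z i
    have h1 : (v z i).natAbs ≤ ∑ i, (v z i).natAbs :=
      single_le_sum (f := fun i => (v z i).natAbs) (fun _ _ => Nat.zero_le _) (mem_univ i)
    have h2 : ∑ i, (v z i).natAbs ≤ W0 := by
      rw [hW0]
      exact single_le_sum (f := fun z => ∑ i, (v z i).natAbs) (fun _ _ => Nat.zero_le _) (mem_univ z)
    rw [← Int.natCast_natAbs]
    exact_mod_cast h1.trans h2
  obtain ⟨S0, hS0⟩ : ∃ S0 : ℕ, S0 = ∑ z, (s z).natAbs := ⟨_, rfl⟩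
  have hS0b : ∀ z, |s z| ≤ S0 := by
    intro z
    have h1 : (s z).natAbs ≤ S0 := by
      rw [hS0]
      exact single_le_sum (f := fun z => (s z).natAbs) (fun _ _ => Nat.zero_le _) (mem_univ z)
    rw [← Int.natCast_natAbs]
    exact_mod_cast h1
  obtain ⟨Q, hQ⟩ : ∃ Q : ℕ, Q = (T * K).factorial := ⟨_, rfl⟩
  have hQ1 : 1 ≤ Q := by rw [hQ]; exact Nat.factorial_pos _
  -- a nonzero coordinate
  obtain ⟨g0, i0, hgi⟩ : ∃ (g0 : Fin T) (i0 : Fin k), e g0 i0 ≠ 0 := by
    by_contra hcon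
    push Not at hcon
    obtain ⟨f, a, a', hf, hfa, hfa'⟩ := through (T := T) (k := k) hk (by omega) (⟨0, by omega⟩ : Fin T)
      (⟨1, by omega⟩ : Fin T) (by intro h; have := congrArg Fin.val h; simp at this)
    obtain ⟨s', v', h'⟩ := hlin f hf (fun b => if b = a then 0 else 1)
    have hd : ∀ g, dot (e g) v' = 0 := by
      intro g
      unfold Pool.Agent.P8H13.AD.dot
      exact sum_eq_zero fun i _ => by rw [hcon g i, zero_mul]
    have haa : a' ≠ a := by
      intro h1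
      rw [h1, hfa] at hfa'
      have := congrArg Fin.val hfa'
      simp at this
    have h1 := h' a
    have h2 := h' a'
    rw [hd, if_pos rfl] at h1
    rw [hd, if_neg haa] at h2
    have h3 : (P : ℤ) = 0 := by linarith
    have h4 : P = 0 := by exact_mod_cast h3
    omega
  obtain ⟨B, hB⟩ : ∃ B : ℕ, B = 40 * (1 + Q * P * K + Q * S0) := ⟨_, rfl⟩
  have hB1 : 1 ≤ B := by rw [hB]; omega
  refine ⟨Q * W0 + 1, T * K + 2, B, hB1, ?_⟩
  have hlogt : Tendsto (fun N : ℕ => Real.log (N : ℝ)) atTop atTop :=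
    Real.tendsto_log_atTop.comp tendsto_natCast_atTop_atTop
  filter_upwards [hHIT, eventually_ge_atTop 1000, hlogt.eventually_ge_atTop ((s0 + 2) / c0 + 1)] with
    N hHIT hN hNlog γ x l hl1 G hx'
  have hN0 : (0 : ℝ) < N := by exact_mod_cast (by omega : 0 < N)
  have hx : ∀ z, Bd B N e γ (fun i => x i + l * (Q * v z i)) ∧ Exc M (T * K + 2) N e γ (fun i => x i + l * (Q * v z i)) ∧
      col (T * K + 2) N e γ (fun i => x i + l * (Q * v z i)) = G := by
    intro z
    refine hx' (fun i => Q * v z i) (fun i => ?_)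
    rw [abs_mul, Nat.abs_cast]
    push_cast
    have := mul_le_mul_of_nonneg_left (hW0b z i) (Nat.cast_nonneg Q : (0 : ℤ) ≤ (Q : ℤ))
    linarith
  -- the base point
  have hx0 := hx' 0 (fun i => by simp only [Pi.zero_apply, abs_zero]; exact Nat.cast_nonneg _)
  have hxx : (fun i => x i + (l : ℤ) * (0 : Fin k → ℤ) i) = x := by
    funext i
    simp
  rw [hxx] at hx0
  obtain ⟨hxB, ⟨-, hxadm, hxS⟩, hxG⟩ := hx0
  -- the size of `l`
  have hlN : (B : ℤ) * l ≤ N := by
    have h1 := (hx' (fun i => if i = i0 then 1 else 0) (fun i => by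
      split_ifs
      · rw [abs_one]; push_cast; have : (0 : ℤ) ≤ Q * W0 := by positivity
        linarith
      · rw [abs_zero]; exact Nat.cast_nonneg _)).1 g0
    have h2 := hxB g0
    rw [val_add] at h1
    have h3 : dot (e g0) (fun i => if i = i0 then 1 else 0) = e g0 i0 := by
      unfold Pool.Agent.P8H13.AD.dot
      simp
    rw [h3] at h1
    have h4 : (1 : ℤ) ≤ |e g0 i0| := Int.one_le_abs hgi
    have hBz : (0 : ℤ) ≤ B := Nat.cast_nonneg _
    have hlz : (0 : ℤ) ≤ l := Nat.cast_nonneg _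
    rcases abs_cases (e g0 i0) with ⟨h5, -⟩ | ⟨h5, -⟩
    · rw [h5] at h4
      have h6 : (l : ℤ) ≤ val e γ x g0 + l * e g0 i0 := by nlinarith [h2.1]
      exact (mul_le_mul_of_nonneg_left h6 hBz).trans h1.2
    · rw [h5] at h4
      have h6 : (l : ℤ) ≤ val e γ x g0 := by nlinarith [h1.1]
      exact (mul_le_mul_of_nonneg_left h6 hBz).trans h2.2
  -- the shifts
  obtain ⟨c, hc⟩ : ∃ c : Fin T → Fin K → ℤ, c = fun (g : Fin T) (i : Fin K) =>
    val e γ x g + l * Q * P * ((i : ℕ) : ℤ) := ⟨_, rfl⟩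
  have hcz : ∀ (f : Fin (k + 1) → Fin T) (ι : Fin (k + 1) → Fin K), Function.Injective f →
      ∃ κ : Fin k → ℤ, Exc M (T * K + 2) N e γ κ ∧ col (T * K + 2) N e γ κ = G ∧ ∃ t : ℤ,
        |t| ≤ l * Q * S0 ∧ ∀ a, c (f a) (ι a) = t + val e γ κ (f a) := by
    intro f ι hf
    obtain ⟨-, h2, h3⟩ := hx (f, ι)
    refine ⟨_, h2, h3, l * Q * s (f, ι), ?_, fun a => ?_⟩
    · rw [abs_mul, abs_mul, Nat.abs_cast, Nat.abs_cast]
      exact mul_le_mul_of_nonneg_left (hS0b _) (by positivity)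
    · have h4 := hsv (f, ι) hf a
      have h5 : (fun i => x i + (l : ℤ) * (Q * v (f, ι) i)) =
          fun i => x i + ((l : ℤ) * Q) * v (f, ι) i := by
        funext i
        ring
      rw [h5, val_add, hc]
      show val e γ x (f a) + l * Q * P * ((ι a : ℕ) : ℤ) = _
      have h6 : (P : ℤ) * ((ι a : ℕ) : ℤ) = s (f, ι) + dot (e (f a)) (v (f, ι)) := h4.symm
      linear_combination ((l : ℤ) * Q) * h6
  have hlQP : ((l : ℤ) * Q * P) ≠ 0 := by positivity
  have hcinj : ∀ g h i j, c g i = c h j → g = h ∧ i = j := by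
    intro g h i j hcc
    by_cases hgh : g = h
    · subst hgh
      refine ⟨rfl, ?_⟩
      rw [hc] at hcc
      have h1 : (l : ℤ) * Q * P * ((i : ℕ) : ℤ) = l * Q * P * ((j : ℕ) : ℤ) := add_left_cancel hcc
      have h2 := mul_left_cancel₀ hlQP h1
      exact Fin.ext (by exact_mod_cast h2)
    · exfalso
      obtain ⟨f, a, a', hf, hfa, hfa'⟩ := through hk (by omega) g h hgh
      have haa : a ≠ a' := by
        intro h1
        exact hgh (by rw [← hfa, ← hfa', h1])
      obtain ⟨κ, hκ, -, t, -, ht⟩ := hcz f (fun z => if z = a then i else j) hf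
      have h1 := ht a
      have h2 := ht a'
      rw [if_pos rfl, hfa] at h1
      rw [if_neg haa.symm, hfa'] at h2
      rw [h1, h2] at hcc
      exact hgh (hκ.1 (add_left_cancel hcc))
  have hc0' : ∀ g i, 0 ≤ c g i ∧ 40 * c g i ≤ N := by
    intro g i
    have h1 := hxB g
    have h2 : ((i : ℕ) : ℤ) ≤ K := by exact_mod_cast i.2.le
    have h3 : (0 : ℤ) ≤ l * Q * P * ((i : ℕ) : ℤ) := by positivity
    rw [hc]
    refine ⟨by show 0 ≤ val e γ x g + l * Q * P * ((i : ℕ) : ℤ); linarith, ?_⟩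
    show 40 * (val e γ x g + l * Q * P * ((i : ℕ) : ℤ)) ≤ N
    have h4 : (l : ℤ) * Q * P * ((i : ℕ) : ℤ) ≤ l * Q * P * K := mul_le_mul_of_nonneg_left h2 (by positivity)
    have hBz : (0 : ℤ) < B := by exact_mod_cast hB1
    have h5 : (B : ℤ) * (40 * (val e γ x g + l * Q * P * ((i : ℕ) : ℤ))) ≤ B * N := by
      calc (B : ℤ) * (40 * (val e γ x g + l * Q * P * ((i : ℕ) : ℤ)))
          ≤ B * (40 * (val e γ x g + l * Q * P * K)) :=
            mul_le_mul_of_nonneg_left (by linarith) hBz.le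
        _ = 40 * (B * val e γ x g) + 40 * (Q * P * K) * (B * l) := by ring
        _ ≤ 40 * N + 40 * (Q * P * K) * N := by
            have h6 : (40 * (Q * P * K) * (B * l) : ℤ) ≤ 40 * (Q * P * K) * N :=
              mul_le_mul_of_nonneg_left hlN (by positivity)
            linarith [h1.2]
        _ ≤ B * N := by
            rw [hB]
            push_cast
            have h7 : (0 : ℤ) ≤ Q * S0 * N := by positivity
            linarith
    exact le_of_mul_le_mul_left h5 hBz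
  obtain ⟨S, σ, hSc, hcnt⟩ := hHIT (fun z => ((1 : ℤ), c z.1 z.2))
    (by
      intro z w h
      have h1 : c z.1 z.2 = c w.1 w.2 := congrArg Prod.snd h
      obtain ⟨h4, h5⟩ := hcinj _ _ _ _ h1
      exact Prod.ext h4 h5)
    (by
      intro z
      obtain ⟨h1, h2⟩ := hc0' z.1 z.2
      refine ⟨Or.inl rfl, ?_, fun t ht1 ht2 => ?_⟩
      · show 10 * |c z.1 z.2| ≤ 9 * N
        rw [abs_of_nonneg h1]
        have : (0 : ℤ) ≤ N := Nat.cast_nonneg _
        linarith
      · show (N : ℝ) / 20 ≤ ((1 : ℤ) : ℝ) * t + ((c z.1 z.2 : ℤ) : ℝ)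
        have h3 : (0 : ℝ) ≤ ((c z.1 z.2 : ℤ) : ℝ) := by exact_mod_cast h1
        push_cast
        linarith)
    (by
      intro p hp hpT
      obtain ⟨r, hr⟩ := hxadm p hp
      refine ⟨r, fun z h => hr z.1 ?_⟩
      have hpQ : (p : ℤ) ∣ (Q : ℤ) := by
        rw [hQ]
        exact_mod_cast Nat.dvd_factorial hp.pos hpT
      have h0 : (p : ℤ) ∣ 1 * r + c z.1 z.2 := h
      have e1 : val e γ x z.1 + r = (1 * r + c z.1 z.2) - Q * (l * P * ((z.2 : ℕ) : ℤ)) := by
        rw [hc]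
        ring
      rw [e1]
      exact dvd_sub h0 (hpQ.mul_right _))
  -- an injective tuple in `S` which is not good
  push Not at hxS
  obtain ⟨f, hf, hfS, hfR⟩ := hxS S hSc
  have hfG : f ∉ G := by
    intro h
    rw [← hxG] at h
    exact hfR (mem_filter.1 h).2
  obtain ⟨κ, hκ, hκG, t, ht1, ht⟩ := hcz f (fun a => σ (f a)) hf
  apply hfG
  rw [← hκG]
  refine mem_filter.2 ⟨mem_univ _, ?_⟩
  -- the count
  obtain ⟨A, hA⟩ : ∃ A : Finset ℕ, A = (IN N).filter (fun n : ℕ =>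
    (∀ z : Fin T × Fin K, Rgh δ N (ev ((fun z : Fin T × Fin K => ((1 : ℤ), c z.1 z.2)) z) n)) ∧
      ∀ g ∈ S, (ev ((fun z : Fin T × Fin K => ((1 : ℤ), c z.1 z.2)) (g, σ g)) n).toNat.Prime) := ⟨_, rfl⟩
  rw [← hA] at hcnt
  have hlog1 : 1 ≤ Real.log N := by
    have h1 : (0 : ℝ) ≤ (s0 + 2) / c0 := by positivity
    linarith
  have hcount : (N : ℝ) / Real.log N ^ (T * K + 2) ≤ A.card := by
    have h1 : c0 * (N / (Real.log N) ^ (T * K)) ≤ A.card * (Real.log N + s0 + 1) := by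
      refine hcnt.trans ?_
      rw [← nsmul_eq_mul]
      refine sum_le_card_nsmul _ _ _ fun n _ => ?_
      have h2 : ((range (⌊Real.log N⌋₊ + s0 + 1)).filter (fun j : ℕ => Rgh δ N (n - j))).card ≤
          ⌊Real.log N⌋₊ + s0 + 1 := (card_filter_le _ _).trans (card_range _).le
      have h3 : (⌊Real.log N⌋₊ : ℝ) ≤ Real.log N := Nat.floor_le (by linarith)
      have h4 : (((range (⌊Real.log N⌋₊ + s0 + 1)).filter (fun j : ℕ => Rgh δ N (n - j))).card : ℝ) ≤
          ((⌊Real.log N⌋₊ + s0 + 1 : ℕ) : ℝ) := by exact_mod_cast h2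
      push_cast at h4
      linarith
    have h2 : Real.log N + s0 + 1 ≤ c0 * (Real.log N) ^ 2 := by
      have h3 : (s0 + 2 : ℝ) ≤ c0 * (Real.log N) := by
        have h4 : (s0 + 2 : ℝ) / c0 ≤ Real.log N := by linarith
        rw [div_le_iff₀ hc0] at h4
        linarith
      have h5 : (0 : ℝ) ≤ s0 := Nat.cast_nonneg _
      have h6 : (s0 + 2 : ℝ) * Real.log N ≤ c0 * Real.log N * Real.log N :=
        mul_le_mul_of_nonneg_right h3 (by linarith)
      nlinarith
    have hp1 : (0 : ℝ) < Real.log N ^ (T * K) := by positivity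
    have hp2 : (0 : ℝ) < Real.log N ^ 2 := by positivity
    rw [pow_add, ← div_div, div_le_iff₀ hp2]
    have h3 : c0 * (N / (Real.log N) ^ (T * K)) ≤ c0 * (A.card * (Real.log N) ^ 2) := by
      calc c0 * (N / (Real.log N) ^ (T * K)) ≤ A.card * (Real.log N + s0 + 1) := h1
        _ ≤ A.card * (c0 * (Real.log N) ^ 2) := mul_le_mul_of_nonneg_left h2 (Nat.cast_nonneg _)
        _ = _ := by ring
    exact le_of_mul_le_mul_left h3 hc0
  have ht2 : 40 * |t| ≤ N := by
    have hBz : (0 : ℤ) < B := by exact_mod_cast hB1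
    have h5 : (B : ℤ) * (40 * |t|) ≤ B * N := by
      calc (B : ℤ) * (40 * |t|) ≤ B * (40 * (l * Q * S0)) :=
            mul_le_mul_of_nonneg_left (by linarith) hBz.le
        _ = 40 * (Q * S0) * (B * l) := by ring
        _ ≤ 40 * (Q * S0) * N := mul_le_mul_of_nonneg_left hlN (by positivity)
        _ ≤ B * N := by
            rw [hB]
            push_cast
            have h7 : (0 : ℤ) ≤ Q * P * K * N := by positivity
            have h8 : (0 : ℤ) ≤ N := by positivity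
            linarith
    exact le_of_mul_le_mul_left h5 hBz
  have hrange : ∀ n ∈ A, 1 ≤ (n : ℤ) + t ∧ (n : ℤ) + t ≤ N := by
    intro n hn
    rw [hA, mem_filter] at hn
    unfold IN at hn
    have h1 := mem_Icc.1 hn.1
    have h2 := abs_le.1 (show |t| ≤ (N : ℤ) / 40 by omega)
    constructor
    · omega
    · omega
  unfold Many
  refine hcount.trans ?_
  rw [Nat.cast_le]
  apply card_le_card_of_injOn (fun n : ℕ => ((n : ℤ) + t).toNat)
  · intro n hn
    have hn' := mem_coe.1 hn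
    obtain ⟨h1, h2⟩ := hrange n hn'
    have h3 : ((((n : ℤ) + t).toNat : ℕ) : ℤ) = (n : ℤ) + t := Int.toNat_of_nonneg (by linarith)
    rw [mem_coe, mem_filter, mem_Icc]
    refine ⟨⟨?_, ?_⟩, fun i => ?_⟩
    · show 1 ≤ ((n : ℤ) + t).toNat
      omega
    · show ((n : ℤ) + t).toNat ≤ N
      omega
    show ((((((n : ℤ) + t).toNat : ℕ) : ℤ) + val e γ κ (f i)).toNat).Prime
    rw [h3]
    have h4 : (n : ℤ) + t + val e γ κ (f i) = 1 * n + c (f i) (σ (f i)) := by
      rw [ht i]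
      ring
    rw [h4]
    rw [hA, mem_filter] at hn'
    exact hn'.2.2 (f i) (hfS i)
  · intro n hn n' hn' h
    obtain ⟨h1, -⟩ := hrange n (mem_coe.1 hn)
    obtain ⟨h2, -⟩ := hrange n' (mem_coe.1 hn')
    have h3 : ((n : ℤ) + t).toNat = ((n' : ℤ) + t).toNat := h
    omega

end Pool.Agent.P8H13.UL
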