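import Mathlib
import Pool.Agent.P8H13.UL.Core

/-!
# Linear families of sets of shifts, uniformly at every scale: cubes and boxes (helper13)
-/

set_option autoImplicit false

namespace Pool.Agent.P8H13.UL

open Finset hiding box
open Filter Topology
open Pool.Agent.P8H13.AD (dot GenPos lin through dot_add mszk box box_card)

open Classical in
/-- every homothetic copy of a fixed cube on which the numbers lie between `0` and `N / B` contains a vector which is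
not exceptional, and so does every dense set in a box -/
theorem cube (k T M : ℕ) (hk : 1 ≤ k) (hkM : k ≤ M) (hTM : (18 / 5 : ℝ) * M < T)
    (e : Fin T → Fin k → ℤ) (he : GenPos e) : ∃ ℓ C B : ℕ, 1 ≤ B ∧ ∀ᶠ N : ℕ in atTop,
    ∀ (γ : Fin T → ℤ) (x : Fin k → ℤ) (d : ℕ), 1 ≤ d →
      (∀ t : Fin k → ℕ, (∀ i, t i < ℓ) → Bd B N e γ (fun i => x i + t i * d)) →
      ∃ t : Fin k → ℕ, (∀ i, t i < ℓ) ∧ ¬ Exc M C N e γ (fun i => x i + t i * d) := by
  obtain ⟨W, C, B, hB, h⟩ := core k T M hk hkM hTM e he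
  obtain ⟨Γ, hΓ⟩ : ∃ Γ : ℕ, Γ = Fintype.card (Finset (Fin (k + 1) → Fin T)) := ⟨_, rfl⟩
  have hΓ1 : 0 < Γ := by rw [hΓ]; exact Fintype.card_pos
  have hΓr : (0 : ℝ) < Γ := by exact_mod_cast hΓ1
  obtain ⟨n, hn, hcopy⟩ := mszk k (Fin k → Fin (2 * W + 1)) (1 / Γ) (by positivity)
  obtain ⟨H, hH⟩ : ∃ H : ℕ, H = 2 * n * (2 * W) + 1 := ⟨_, rfl⟩
  refine ⟨H + 1, C, B, hB, ?_⟩
  filter_upwards [h] with N h γ x d hd hbd
  by_contra hcon
  push Not at hcon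
  have hnat : ∀ κ ∈ box (0 : Fin k → ℤ) H, (∀ i, (κ i).toNat < H + 1) ∧ ∀ i, (((κ i).toNat : ℕ) : ℤ) = κ i := by
    intro κ hκ
    unfold box at hκ
    rw [Fintype.mem_piFinset] at hκ
    refine ⟨fun i => ?_, fun i => ?_⟩
    · have h2 := mem_Ioc.1 (hκ i)
      simp only [Pi.zero_apply, zero_add] at h2
      omega
    · have h2 := mem_Ioc.1 (hκ i)
      simp only [Pi.zero_apply, zero_add] at h2
      exact Int.toNat_of_nonneg h2.1.le
  have hexc : ∀ κ ∈ box (0 : Fin k → ℤ) H, Bd B N e γ (fun i => x i + κ i * d) ∧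
      Exc M C N e γ (fun i => x i + κ i * d) := by
    intro κ hκ
    obtain ⟨h2, h3⟩ := hnat κ hκ
    have h1 := hcon (fun i => (κ i).toNat) h2
    have h0 := hbd (fun i => (κ i).toNat) h2
    simp only [h3] at h1 h0
    exact ⟨h0, h1⟩
  obtain ⟨γ', hγ⟩ : ∃ γ' : (Fin k → ℤ) → Finset (Fin (k + 1) → Fin T),
    γ' = fun κ => col C N e γ (fun i => x i + κ i * d) := ⟨_, rfl⟩
  obtain ⟨G, -, hGc⟩ := exists_le_card_fiber_of_nsmul_le_card_of_maps_to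
    (s := box (0 : Fin k → ℤ) H) (t := (univ : Finset (Finset (Fin (k + 1) → Fin T)))) (f := γ')
    (fun _ _ => mem_univ _) ⟨∅, mem_univ _⟩ (b := 1 / Γ * (H : ℝ) ^ k) (by
      rw [nsmul_eq_mul, card_univ, ← hΓ, box_card]
      have e1 : (Γ : ℝ) * (1 / Γ * (H : ℝ) ^ k) = (H : ℝ) ^ k := by field_simp
      rw [e1]
      push_cast
      exact le_rfl)
  obtain ⟨y, l, hl1, -, hy⟩ := hcopy (fun a i => ((a i : ℕ) : ℤ)) (2 * W) (by
      intro a i
      rw [Nat.abs_cast]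
      exact_mod_cast Nat.le_of_lt_succ (a i).2) H (by omega) (by omega) 0
    ((box (0 : Fin k → ℤ) H).filter (fun κ => γ' κ = G)) (filter_subset _ _) hGc
  refine h γ (fun i => x i + (y i + l * W) * d) (l * d) (Nat.mul_pos hl1 hd) G (fun z hz => ?_)
  have hz2 : ∀ i, (((z i + W).toNat : ℕ) : ℤ) = z i + W := fun i => by
    have h1 := abs_le.1 (hz i)
    exact Int.toNat_of_nonneg (by linarith)
  have hlt : ∀ i, (z i + W).toNat < 2 * W + 1 := fun i => by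
    have h1 := abs_le.1 (hz i)
    have h2 : (((z i + W).toNat : ℕ) : ℤ) < ((2 * W + 1 : ℕ) : ℤ) := by
      rw [hz2 i]; push_cast; linarith
    exact_mod_cast h2
  have h1 := hy (fun i => ⟨(z i + W).toNat, hlt i⟩)
  obtain ⟨h2, h3⟩ := mem_filter.1 h1
  have h4 := hexc _ h2
  rw [hγ] at h3
  have e1 : (fun i => x i + (fun i => y i + (l : ℤ) * (((⟨(z i + W).toNat, hlt i⟩ : Fin (2 * W + 1)) : ℕ) : ℤ)) i
      * (d : ℤ)) = fun i => x i + (y i + (l : ℤ) * W) * d + ((l * d : ℕ) : ℤ) * z i := by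
    funext i
    show x i + (y i + (l : ℤ) * (((z i + W).toNat : ℕ) : ℤ)) * d = _
    rw [hz2 i]
    push_cast
    ring
  rw [e1] at h4
  refine ⟨h4.1, h4.2, ?_⟩
  have h5 : col C N e γ (fun i => x i + (fun i => y i + (l : ℤ) *
      (((⟨(z i + W).toNat, hlt i⟩ : Fin (2 * W + 1)) : ℕ) : ℤ)) i * (d : ℤ)) = G := h3
  rw [e1] at h5
  exact h5

open Classical in
/-- cubes and boxes, with the same constants -/
theorem both (k T M : ℕ) (hk : 1 ≤ k) (hkM : k ≤ M) (hTM : (18 / 5 : ℝ) * M < T)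
    (e : Fin T → Fin k → ℤ) (he : GenPos e) : ∃ ℓ C B N₀ : ℕ, 1 ≤ B ∧
    (∀ N : ℕ, N₀ ≤ N → ∀ (γ : Fin T → ℤ) (x : Fin k → ℤ) (d : ℕ), 1 ≤ d →
      (∀ t : Fin k → ℕ, (∀ i, t i < ℓ) → Bd B N e γ (fun i => x i + t i * d)) →
      ∃ t : Fin k → ℕ, (∀ i, t i < ℓ) ∧ ¬ Exc M C N e γ (fun i => x i + t i * d)) ∧
    ∀ ε : ℝ, 0 < ε → ∃ L : ℕ,
      ∀ N : ℕ, N₀ ≤ N → ∀ (γ : Fin T → ℤ) (u : Fin k → ℤ) (H : ℕ), L ≤ H →
      (((box u H).filter (fun κ => Bd B N e γ κ ∧ Exc M C N e γ κ)).card : ℝ) ≤ ε * (H : ℝ) ^ k := by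
  obtain ⟨ℓ, C, B, hB, h⟩ := cube k T M hk hkM hTM e he
  rw [eventually_atTop] at h
  obtain ⟨N₀, h⟩ := h
  refine ⟨ℓ, C, B, N₀, hB, h, fun ε hε => ?_⟩
  obtain ⟨n, hn, hcopy⟩ := mszk k (Fin k → Fin (ℓ + 1)) ε hε
  refine ⟨2 * n * ℓ + 1, fun N hN γ u H hH => ?_⟩
  by_contra hcon
  rw [not_le] at hcon
  obtain ⟨y, l, hl1, -, hy⟩ := hcopy (fun a i => ((a i : ℕ) : ℤ)) ℓ (by
      intro a i
      rw [Nat.abs_cast]
      exact_mod_cast Nat.le_of_lt_succ (a i).2) H (by omega) (by omega) u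
    ((box u H).filter (fun κ => Bd B N e γ κ ∧ Exc M C N e γ κ)) (filter_subset _ _) hcon.le
  have hall : ∀ t : Fin k → ℕ, (∀ i, t i < ℓ) → Bd B N e γ (fun i => y i + t i * l) ∧
      Exc M C N e γ (fun i => y i + t i * l) := by
    intro t ht
    have h1 := (mem_filter.1 (hy (fun i => ⟨t i, (ht i).trans (Nat.lt_succ_self ℓ)⟩))).2
    have e1 : (fun i => y i + (l : ℤ) * (((⟨t i, (ht i).trans (Nat.lt_succ_self ℓ)⟩ : Fin (ℓ + 1)) : ℕ) : ℤ)) =
        fun i => y i + (t i : ℤ) * l := by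
      funext i
      show y i + (l : ℤ) * (t i : ℤ) = _
      ring
    rw [← e1]
    exact h1
  obtain ⟨t, ht, hne⟩ := h N hN γ y l hl1 (fun t ht => (hall t ht).1)
  exact hne (hall t ht).2

end Pool.Agent.P8H13.UL
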